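import Pool.Agent.TotallySkew.Defs

/-!
Totally skew embeddings in `ℝ⁷` of the closed orientable surfaces.

The map `(z, h) ↦ (z, z², z |z|² + i h z, h)` from `ℂ × ℝ = ℝ³` to `ℂ³ × ℝ = ℝ⁷` has skew tangent
three-spaces at every two points of different vertical lines.
-/

open scoped Manifold ContDiff
open Pool.Agent.TotallySkew

namespace Pool.Agent.Results.MP_794fdb_gt.ClosedOrientable

/-- The polynomial map `(z, h) ↦ (z, z², z |z|² + i h z, h)` in real coordinates. -/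
noncomputable def Phi (p : ℂ × ℝ) : EuclideanSpace ℝ (Fin 7) :=
  WithLp.toLp 2 ![p.1.re, p.1.im, p.1.re * p.1.re - p.1.im * p.1.im, 2 * (p.1.re * p.1.im),
    p.1.re * (p.1.re * p.1.re + p.1.im * p.1.im) - p.2 * p.1.im,
    p.1.im * (p.1.re * p.1.re + p.1.im * p.1.im) + p.2 * p.1.re, p.2]

/-- Its derivative. -/
noncomputable def dPhi (p : ℂ × ℝ) : ℂ × ℝ →L[ℝ] EuclideanSpace ℝ (Fin 7) :=
  LinearMap.toContinuousLinearMap
    { toFun := fun u => WithLp.toLp 2 ![u.1.re, u.1.im,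
        2 * (p.1.re * u.1.re) - 2 * (p.1.im * u.1.im), 2 * (p.1.re * u.1.im + p.1.im * u.1.re),
        u.1.re * (p.1.re * p.1.re + p.1.im * p.1.im) +
          p.1.re * (2 * (p.1.re * u.1.re) + 2 * (p.1.im * u.1.im)) -
          (p.2 * u.1.im + u.2 * p.1.im),
        u.1.im * (p.1.re * p.1.re + p.1.im * p.1.im) +
          p.1.im * (2 * (p.1.re * u.1.re) + 2 * (p.1.im * u.1.im)) +
          (p.2 * u.1.re + u.2 * p.1.re), u.2]
      map_add' := by
        intro h k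
        ext i
        fin_cases i <;> simp <;> ring
      map_smul' := by
        intro c h
        ext i
        fin_cases i <;> simp <;> ring }

theorem dPhi_apply (p u : ℂ × ℝ) :
    dPhi p u = WithLp.toLp 2 ![u.1.re, u.1.im,
        2 * (p.1.re * u.1.re) - 2 * (p.1.im * u.1.im), 2 * (p.1.re * u.1.im + p.1.im * u.1.re),
        u.1.re * (p.1.re * p.1.re + p.1.im * p.1.im) +
          p.1.re * (2 * (p.1.re * u.1.re) + 2 * (p.1.im * u.1.im)) -
          (p.2 * u.1.im + u.2 * p.1.im),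
        u.1.im * (p.1.re * p.1.re + p.1.im * p.1.im) +
          p.1.im * (2 * (p.1.re * u.1.re) + 2 * (p.1.im * u.1.im)) +
          (p.2 * u.1.re + u.2 * p.1.re), u.2] := rfl

theorem hasStrictFDerivAt_re (p : ℂ × ℝ) : HasStrictFDerivAt (fun q : ℂ × ℝ => q.1.re)
    (Complex.reCLM.comp (ContinuousLinearMap.fst ℝ ℂ ℝ)) p :=
  (Complex.reCLM.comp (ContinuousLinearMap.fst ℝ ℂ ℝ)).hasStrictFDerivAt

theorem hasStrictFDerivAt_im (p : ℂ × ℝ) : HasStrictFDerivAt (fun q : ℂ × ℝ => q.1.im)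
    (Complex.imCLM.comp (ContinuousLinearMap.fst ℝ ℂ ℝ)) p :=
  (Complex.imCLM.comp (ContinuousLinearMap.fst ℝ ℂ ℝ)).hasStrictFDerivAt

theorem hasStrictFDerivAt_snd' (p : ℂ × ℝ) : HasStrictFDerivAt (fun q : ℂ × ℝ => q.2)
    (ContinuousLinearMap.snd ℝ ℂ ℝ) p :=
  (ContinuousLinearMap.snd ℝ ℂ ℝ).hasStrictFDerivAt

theorem hasFDerivAt_Phi (p : ℂ × ℝ) : HasFDerivAt Phi (dPhi p) p := by
  refine HasStrictFDerivAt.hasFDerivAt (hasStrictFDerivAt_euclidean.2 fun i => ?_)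
  have h0 := hasStrictFDerivAt_re p
  have h1 := hasStrictFDerivAt_im p
  have h2 := hasStrictFDerivAt_snd' p
  fin_cases i
  · refine h0.congr_fderiv ?_
    ext v <;> simp [dPhi_apply]
  · refine h1.congr_fderiv ?_
    ext v <;> simp [dPhi_apply]
  · refine ((h0.mul h0).sub (h1.mul h1)).congr_fderiv ?_
    ext v <;> simp [dPhi_apply] <;> ring
  · refine ((h0.mul h1).const_mul 2).congr_fderiv ?_
    ext v <;> simp [dPhi_apply] <;> ring
  · refine ((h0.mul ((h0.mul h0).add (h1.mul h1))).sub (h2.mul h1)).congr_fderiv ?_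
    ext v <;> simp [dPhi_apply] <;> ring
  · refine ((h1.mul ((h0.mul h0).add (h1.mul h1))).add (h2.mul h0)).congr_fderiv ?_
    ext v <;> simp [dPhi_apply] <;> ring
  · refine h2.congr_fderiv ?_
    ext v <;> simp [dPhi_apply]

theorem contDiff_Phi : ContDiff ℝ ∞ Phi := by
  rw [contDiff_euclidean]
  intro i
  have h0 : ContDiff ℝ ∞ (fun q : ℂ × ℝ => q.1.re) :=
    (Complex.reCLM.comp (ContinuousLinearMap.fst ℝ ℂ ℝ)).contDiff
  have h1 : ContDiff ℝ ∞ (fun q : ℂ × ℝ => q.1.im) :=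
    (Complex.imCLM.comp (ContinuousLinearMap.fst ℝ ℂ ℝ)).contDiff
  have h2 : ContDiff ℝ ∞ (fun q : ℂ × ℝ => q.2) := (ContinuousLinearMap.snd ℝ ℂ ℝ).contDiff
  fin_cases i
  · exact h0
  · exact h1
  · exact (h0.mul h0).sub (h1.mul h1)
  · exact contDiff_const.mul (h0.mul h1)
  · exact (h0.mul ((h0.mul h0).add (h1.mul h1))).sub (h2.mul h1)
  · exact (h1.mul ((h0.mul h0).add (h1.mul h1))).add (h2.mul h0)
  · exact h2

/-- The tangent three-spaces of `Phi` at two points of different vertical lines are skew. -/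
theorem key {x0 x1 x2 y0 y1 y2 a0 a1 a2 b0 b1 b2 t : ℝ}
    (hne : x0 - y0 ≠ 0 ∨ x1 - y1 ≠ 0)
    (e0 : t * (x0 - y0) + a0 + b0 = 0) (e1 : t * (x1 - y1) + a1 + b1 = 0)
    (e2 : t * ((x0 * x0 - x1 * x1) - (y0 * y0 - y1 * y1)) +
      (2 * (x0 * a0) - 2 * (x1 * a1)) + (2 * (y0 * b0) - 2 * (y1 * b1)) = 0)
    (e3 : t * (2 * (x0 * x1) - 2 * (y0 * y1)) + 2 * (x0 * a1 + x1 * a0) +
      2 * (y0 * b1 + y1 * b0) = 0)
    (e4 : t * ((x0 * (x0 * x0 + x1 * x1) - x2 * x1) - (y0 * (y0 * y0 + y1 * y1) - y2 * y1)) +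
      (a0 * (x0 * x0 + x1 * x1) + x0 * (2 * (x0 * a0) + 2 * (x1 * a1)) - (x2 * a1 + a2 * x1)) +
      (b0 * (y0 * y0 + y1 * y1) + y0 * (2 * (y0 * b0) + 2 * (y1 * b1)) -
        (y2 * b1 + b2 * y1)) = 0)
    (e5 : t * ((x1 * (x0 * x0 + x1 * x1) + x2 * x0) - (y1 * (y0 * y0 + y1 * y1) + y2 * y0)) +
      (a1 * (x0 * x0 + x1 * x1) + x1 * (2 * (x0 * a0) + 2 * (x1 * a1)) + (x2 * a0 + a2 * x0)) +
      (b1 * (y0 * y0 + y1 * y1) + y1 * (2 * (y0 * b0) + 2 * (y1 * b1)) +
        (y2 * b0 + b2 * y0)) = 0)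
    (e6 : t * (x2 - y2) + a2 + b2 = 0) :
    t = 0 ∧ (a0 = 0 ∧ a1 = 0 ∧ a2 = 0) ∧ (b0 = 0 ∧ b1 = 0 ∧ b2 = 0) := by
  have hb0 : b0 = -a0 - t * (x0 - y0) := by linear_combination e0
  have hb1 : b1 = -a1 - t * (x1 - y1) := by linear_combination e1
  have hb2 : b2 = -a2 - t * (x2 - y2) := by linear_combination e6
  subst hb0 hb1 hb2
  clear e0 e1 e6
  have hd : 0 < (x0 - y0) ^ 2 + (x1 - y1) ^ 2 := by
    rcases hne with h | h <;> positivity
  have g0 : ((x0 - y0) ^ 2 + (x1 - y1) ^ 2) * (a0 + t * (x0 - y0) / 2) = 0 := by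
    linear_combination (x0 - y0) / 2 * e2 + (x1 - y1) / 2 * e3
  have g1 : ((x0 - y0) ^ 2 + (x1 - y1) ^ 2) * (a1 + t * (x1 - y1) / 2) = 0 := by
    linear_combination (x0 - y0) / 2 * e3 - (x1 - y1) / 2 * e2
  have k0 := (mul_eq_zero.1 g0).resolve_left hd.ne'
  have k1 := (mul_eq_zero.1 g1).resolve_left hd.ne'
  have ha0 : a0 = -(t * (x0 - y0) / 2) := by linear_combination k0
  have ha1 : a1 = -(t * (x1 - y1) / 2) := by linear_combination k1
  subst ha0 ha1
  have f1 : t * ((x0 - y0) ^ 2 + (x1 - y1) ^ 2) ^ 2 = 0 := by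
    linear_combination -2 * (x0 - y0) * e4 - 2 * (x1 - y1) * e5
  have ht : t = 0 := (mul_eq_zero.1 f1).resolve_right (pow_ne_zero 2 hd.ne')
  subst ht
  have f2 : a2 * ((x0 - y0) ^ 2 + (x1 - y1) ^ 2) = 0 := by
    linear_combination (x0 - y0) * e5 - (x1 - y1) * e4
  have ha2 : a2 = 0 := (mul_eq_zero.1 f2).resolve_right hd.ne'
  subst ha2
  simp

/-- Two points of one vertical line: the only relation is vertical. -/
theorem key_vertical {x0 x1 x2 y0 y1 y2 a0 a1 a2 b0 b1 b2 t : ℝ}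
    (h0 : x0 = y0) (h1 : x1 = y1) (h2 : x2 - y2 ≠ 0)
    (e0 : t * (x0 - y0) + a0 + b0 = 0) (e1 : t * (x1 - y1) + a1 + b1 = 0)
    (e4 : t * ((x0 * (x0 * x0 + x1 * x1) - x2 * x1) - (y0 * (y0 * y0 + y1 * y1) - y2 * y1)) +
      (a0 * (x0 * x0 + x1 * x1) + x0 * (2 * (x0 * a0) + 2 * (x1 * a1)) - (x2 * a1 + a2 * x1)) +
      (b0 * (y0 * y0 + y1 * y1) + y0 * (2 * (y0 * b0) + 2 * (y1 * b1)) -
        (y2 * b1 + b2 * y1)) = 0)
    (e5 : t * ((x1 * (x0 * x0 + x1 * x1) + x2 * x0) - (y1 * (y0 * y0 + y1 * y1) + y2 * y0)) +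
      (a1 * (x0 * x0 + x1 * x1) + x1 * (2 * (x0 * a0) + 2 * (x1 * a1)) + (x2 * a0 + a2 * x0)) +
      (b1 * (y0 * y0 + y1 * y1) + y1 * (2 * (y0 * b0) + 2 * (y1 * b1)) +
        (y2 * b0 + b2 * y0)) = 0)
    (e6 : t * (x2 - y2) + a2 + b2 = 0) :
    (a0 = 0 ∧ a1 = 0) ∧ (b0 = 0 ∧ b1 = 0) ∧ (a2 = 0 → b2 = 0 → t = 0) := by
  subst h0 h1
  have hb0 : b0 = -a0 := by linear_combination e0
  have hb1 : b1 = -a1 := by linear_combination e1
  have hb2 : b2 = -a2 - t * (x2 - y2) := by linear_combination e6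
  subst hb0 hb1 hb2
  have ha1 : a1 = 0 := by
    have h3 : (x2 - y2) * a1 = 0 := by linear_combination -e4
    exact (mul_eq_zero.1 h3).resolve_left h2
  have ha0 : a0 = 0 := by
    have h3 : (x2 - y2) * a0 = 0 := by linear_combination e5
    exact (mul_eq_zero.1 h3).resolve_left h2
  refine ⟨⟨ha0, ha1⟩, ⟨by rw [ha0, neg_zero], by rw [ha1, neg_zero]⟩, fun h3 h4 => ?_⟩
  have h5 : t * (x2 - y2) = 0 := by linear_combination -h4 - h3
  exact (mul_eq_zero.1 h5).resolve_right h2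

variable {E H M F G : Type*} [NormedAddCommGroup E] [NormedSpace ℝ E] [TopologicalSpace H]
  [TopologicalSpace M] [ChartedSpace H M] [NormedAddCommGroup F] [NormedSpace ℝ F]
  [NormedAddCommGroup G] [NormedSpace ℝ G]

/-- `ι` is a smooth embedding of the manifold `M` in the normed space `F`: a smooth map which is a
topological embedding, with injective derivative at every point. -/
def IsSmoothEmbedding (I : ModelWithCorners ℝ E H) (ι : M → F) : Prop :=
  ContMDiff I 𝓘(ℝ, F) ∞ ι ∧ Topology.IsEmbedding ι ∧ ∀ x, Function.Injective (mvfderiv I ι x)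

/-- The lines `{g} × ℝ` of `G × ℝ` are called vertical. For `ι : M → G × ℝ`: every point of `M`
with a vertical tangent vector is the only point of `M` on its vertical line, that is, if `x ≠ y`
are on the same vertical line, then no nonzero tangent vector at `x` is vertical. -/
def IsVerticallySimple (I : ModelWithCorners ℝ E H) (ι : M → G × ℝ) : Prop :=
  ∀ x y, x ≠ y → (ι x).1 = (ι y).1 → ∀ u : TangentSpace I x, (mvfderiv I ι x u).1 = 0 → u = 0

/-- `M` is contained in the double `h² = f (g)` of the domain `f ≥ 0` of `G`. -/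
def IsInDouble (f : G → ℝ) (ι : M → G × ℝ) : Prop := ∀ x, (ι x).2 ^ 2 = f (ι x).1

/-- The manifold `M` has a totally skew embedding in `ℝ⁷`, that is, `N(M) ≤ 7`. -/
def SkewInSeven (I : ModelWithCorners ℝ E H) (M : Type*) [TopologicalSpace M]
    [ChartedSpace H M] : Prop :=
  ∃ φ : M → EuclideanSpace ℝ (Fin 7), IsTotallySkewEmbedding I φ

variable {I : ModelWithCorners ℝ E H} {ι : M → ℂ × ℝ}

theorem mvfderiv_Phi (h : IsSmoothEmbedding I ι) (x : M) (u : TangentSpace I x) :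
    mvfderiv I (fun p => Phi (ι p)) x u = dPhi (ι x) (mvfderiv I ι x u) := by
  have hι : MDifferentiableAt I 𝓘(ℝ, ℂ × ℝ) ι x := (h.1 x).mdifferentiableAt (by simp)
  have h1 : HasMFDerivAt I 𝓘(ℝ, EuclideanSpace ℝ (Fin 7)) (Phi ∘ ι) x _ :=
    HasMFDerivAt.comp x (hasFDerivAt_Phi (ι x)).hasMFDerivAt hι.hasMFDerivAt
  have h2 := h1.mfderiv
  change (mfderiv I 𝓘(ℝ, EuclideanSpace ℝ (Fin 7)) (Phi ∘ ι) x) u = _
  rw [h2]
  rfl

theorem main (h : IsSmoothEmbedding I ι) (hv : IsVerticallySimple I ι) {x y : M} (hxy : x ≠ y)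
    {t : ℝ} {u : TangentSpace I x} {v : TangentSpace I y}
    (e : t • (Phi (ι x) - Phi (ι y)) + dPhi (ι x) (mvfderiv I ι x u) +
      dPhi (ι y) (mvfderiv I ι y v) = 0) :
    t = 0 ∧ u = 0 ∧ v = 0 := by
  have hc : ∀ i : Fin 7, (t • (Phi (ι x) - Phi (ι y)) + dPhi (ι x) (mvfderiv I ι x u) +
      dPhi (ι y) (mvfderiv I ι y v)) i = 0 := by
    intro i
    rw [e]
    rfl
  have e0 := hc 0
  have e1 := hc 1
  have e2 := hc 2
  have e3 := hc 3
  have e4 := hc 4
  have e5 := hc 5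
  have e6 := hc 6
  simp only [Phi, dPhi_apply, PiLp.add_apply, PiLp.smul_apply, PiLp.sub_apply,
    smul_eq_mul] at e0 e1 e2 e3 e4 e5 e6
  have hu0 : mvfderiv I ι x u = 0 → u = 0 := fun h1 => h.2.2 x (by rw [h1, map_zero])
  have hv0 : mvfderiv I ι y v = 0 → v = 0 := fun h1 => h.2.2 y (by rw [h1, map_zero])
  by_cases hd : (ι x).1.re - (ι y).1.re ≠ 0 ∨ (ι x).1.im - (ι y).1.im ≠ 0
  · have hk := key hd e0 e1 e2 e3 e4 e5 e6
    refine ⟨hk.1, hu0 ?_, hv0 ?_⟩
    · exact Prod.ext (Complex.ext hk.2.1.1 hk.2.1.2.1) hk.2.1.2.2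
    · exact Prod.ext (Complex.ext hk.2.2.1 hk.2.2.2.1) hk.2.2.2.2
  · push Not at hd
    have d0 : (ι x).1.re = (ι y).1.re := sub_eq_zero.1 hd.1
    have d1 : (ι x).1.im = (ι y).1.im := sub_eq_zero.1 hd.2
    have d : (ι x).1 = (ι y).1 := Complex.ext d0 d1
    have d2 : (ι x).2 - (ι y).2 ≠ 0 := by
      intro d2
      exact hxy (h.2.1.injective (Prod.ext d (sub_eq_zero.1 d2)))
    obtain ⟨⟨ha0, ha1⟩, ⟨hb0, hb1⟩, ht⟩ := key_vertical d0 d1 d2 e0 e1 e4 e5 e6
    have hu : u = 0 := hv x y hxy d u (Complex.ext ha0 ha1)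
    have hv' : v = 0 := hv y x (Ne.symm hxy) d.symm v (Complex.ext hb0 hb1)
    refine ⟨ht ?_ ?_, hu, hv'⟩
    · rw [hu, map_zero]
      rfl
    · rw [hv', map_zero]
      rfl

/-- The double `h² = f` of a domain is vertically simple. -/
theorem isVerticallySimple_of_double {ι : M → G × ℝ} (h : IsSmoothEmbedding I ι) {f : G → ℝ}
    (hf : Differentiable ℝ f) (hι : IsInDouble f ι) : IsVerticallySimple I ι := by
  intro x y hxy d u hu
  have h2 : (ι x).2 ≠ 0 := by
    intro h2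
    apply hxy
    apply h.2.1.injective
    refine Prod.ext d ?_
    have h3 : (ι y).2 ^ 2 = (ι x).2 ^ 2 := by rw [hι, hι, d]
    rw [h2, zero_pow two_ne_zero] at h3
    have h4 : (ι y).2 = 0 := by simpa using h3
    rw [h2, h4]
  have hdf : HasFDerivAt f (fderiv ℝ f (ι x).1) (ι x).1 := (hf _).hasFDerivAt
  have hs : HasFDerivAt (fun p : G × ℝ => p.2) (ContinuousLinearMap.snd ℝ G ℝ) (ι x) :=
    (ContinuousLinearMap.snd ℝ G ℝ).hasFDerivAt
  have hr : HasFDerivAt (fun p : G × ℝ => p.1) (ContinuousLinearMap.fst ℝ G ℝ) (ι x) :=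
    (ContinuousLinearMap.fst ℝ G ℝ).hasFDerivAt
  have hg : HasFDerivAt (fun p : G × ℝ => p.2 * p.2 - f p.1) _ (ι x) :=
    (hs.mul hs).sub (hdf.comp (ι x) hr)
  have hmι : MDifferentiableAt I 𝓘(ℝ, G × ℝ) ι x := (h.1 x).mdifferentiableAt (by simp)
  have k1 := HasMFDerivAt.comp x hg.hasMFDerivAt hmι.hasMFDerivAt
  have k2 : (fun p : G × ℝ => p.2 * p.2 - f p.1) ∘ ι = fun _ => (0 : ℝ) := by
    funext z
    have := hι z
    simp only [Function.comp_apply]
    rw [← this]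
    ring
  rw [k2] at k1
  have k3 := hasMFDerivAt_unique k1 (hasMFDerivAt_const (0 : ℝ) x)
  have k4 := DFunLike.congr_fun k3 u
  have k5 : (ι x).2 * (mvfderiv I ι x u).2 + (ι x).2 * (mvfderiv I ι x u).2 -
      fderiv ℝ f (ι x).1 (mvfderiv I ι x u).1 = 0 := k4
  rw [hu, map_zero, sub_zero] at k5
  have k7 : (mvfderiv I ι x u).2 = 0 := by
    have k8 : (ι x).2 * (mvfderiv I ι x u).2 = 0 := by linarith
    exact (mul_eq_zero.1 k8).resolve_left h2
  apply h.2.2 x
  rw [map_zero]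
  exact Prod.ext hu k7

theorem isEmbedding_Phi : Topology.IsEmbedding Phi := by
  have h1 : Function.LeftInverse (fun w : EuclideanSpace ℝ (Fin 7) =>
      ((w 0 : ℂ) + w 1 * Complex.I, w 6)) Phi := by
    intro p
    refine Prod.ext (Complex.ext ?_ ?_) rfl <;> simp [Phi]
  refine h1.isEmbedding ?_ contDiff_Phi.continuous
  fun_prop

theorem exists_embedding (h : IsSmoothEmbedding I ι) (hv : IsVerticallySimple I ι) :
    SkewInSeven I M := by
  refine ⟨fun p => Phi (ι p), contDiff_Phi.contMDiff.comp h.1, isEmbedding_Phi.comp h.2.1, ?_, ?_⟩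
  · intro x
    rw [injective_iff_map_eq_zero]
    intro u hu
    rw [mvfderiv_Phi h] at hu
    apply h.2.2 x
    have hc : ∀ i : Fin 7, (dPhi (ι x) (mvfderiv I ι x u)) i = 0 := by
      intro i
      rw [hu]
      rfl
    have h0 := hc 0
    have h1 := hc 1
    have h6 := hc 6
    simp only [dPhi_apply] at h0 h1 h6
    rw [map_zero]
    exact Prod.ext (Complex.ext h0 h1) h6
  · intro x y hxy
    unfold affineTangent
    constructor
    · rw [disjoint_iff, ← AffineSubspace.coe_eq_bot_iff, Set.eq_empty_iff_forall_notMem]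
      intro w hw
      obtain ⟨hw1, hw2⟩ := (AffineSubspace.mem_inf_iff w _ _).1 hw
      rw [AffineSubspace.mem_mk'] at hw1 hw2
      obtain ⟨u, hu⟩ := hw1
      obtain ⟨v, hv'⟩ := hw2
      have hu1 : dPhi (ι x) (mvfderiv I ι x u) = w - Phi (ι x) := by
        rw [← mvfderiv_Phi h]
        exact hu
      have hv1 : dPhi (ι y) (mvfderiv I ι y v) = w - Phi (ι y) := by
        rw [← mvfderiv_Phi h]
        exact hv'
      have h1 := main h hv hxy (t := 1) (u := u) (v := -v) (by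
        rw [map_neg, map_neg, hu1, hv1]
        simp)
      exact one_ne_zero h1.1
    · rw [AffineSubspace.direction_mk', AffineSubspace.direction_mk', Submodule.disjoint_def]
      rintro w ⟨u, rfl⟩ ⟨v, hv'⟩
      have hv1 : dPhi (ι y) (mvfderiv I ι y v) = dPhi (ι x) (mvfderiv I ι x u) := by
        rw [← mvfderiv_Phi h, ← mvfderiv_Phi h]
        exact hv'
      have h1 := main h hv hxy (t := 0) (u := u) (v := -v) (by
        rw [map_neg, map_neg, hv1]
        simp)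
      rw [h1.2.1]
      exact map_zero _

/-- **`N(M) ≤ 7` for closed orientable surfaces.** Let `ι` be a smooth embedding of the surface `M`
in `ℝ³ = ℂ × ℝ` (`M` may be any smooth manifold). (1) If every point of `M` with a vertical tangent
vector is the only point of `M` on its vertical line, `M` has a totally skew embedding in `ℝ⁷`.
(2) In particular, this holds if `M` is contained in (for instance, equal to) the double
`h² = f (z)` of a planar domain `f ≥ 0`, `f` any differentiable function. The closed orientable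
surface of genus `g` is such a double (of a disk with `g` holes). -/
theorem result {E H M : Type*} [NormedAddCommGroup E] [NormedSpace ℝ E] [TopologicalSpace H]
    [TopologicalSpace M] [ChartedSpace H M] (I : ModelWithCorners ℝ E H) (ι : M → ℂ × ℝ)
    (hι : IsSmoothEmbedding I ι) :
    (IsVerticallySimple I ι → SkewInSeven I M) ∧
    (∀ f : ℂ → ℝ, Differentiable ℝ f → IsInDouble f ι → SkewInSeven I M) :=
  ⟨fun h => exists_embedding hι h,
    fun _ hf h => exists_embedding hι (isVerticallySimple_of_double hι hf h)⟩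

end Pool.Agent.Results.MP_794fdb_gt.ClosedOrientable
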