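import Pool.Agent.TotallySkew.Open.SP
import Pool.Agent.TotallySkew.Open.MB
import Pool.Agent.TotallySkew.Ori.GL
import Pool.Agent.TotallySkew.Ori.L6

/-!
The totally skew embedding dimension of open surfaces: it is 7 for surfaces which contain a
Moebius strip and have a one-dimensional spine, and 6 for surfaces which embed in a chain of annuli.
-/

open scoped Manifold ContDiff

namespace Pool.Agent.Results.MP_794fdb_gt.OpenSurfaces

open Pool.Agent.TotallySkew

/-- `N(M)`: the smallest `N` such that the surface `M` has a totally skew embedding in `ℝ^N`. -/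
noncomputable def skewDim (M : Type) [TopologicalSpace M]
    [ChartedSpace (EuclideanSpace ℝ (Fin 2)) M] : ℕ :=
  sInf {N | ∃ φ : M → EuclideanSpace ℝ (Fin N), IsTotallySkewEmbedding (𝓡 2) φ}

/-- Open surfaces. (1) No surface containing a Moebius strip has a totally skew embedding in
`ℝ^N`, `N ≤ 6`. (2) `N(M) = 7` for every surface which contains a Moebius strip and has a
one-dimensional spine. (3) `N(M) = 6` for every nonempty surface which embeds smoothly in a chain of
annuli. -/
theorem result (M : Type) [TopologicalSpace M] [ChartedSpace (EuclideanSpace ℝ (Fin 2)) M]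
    [IsManifold (𝓡 2) ∞ M] [T2Space M] :
    (HasMoebiusStrip (𝓡 2) M → ∀ (N : ℕ) (φ : M → EuclideanSpace ℝ (Fin N)),
      IsTotallySkewEmbedding (𝓡 2) φ → 7 ≤ N) ∧
    (HasMoebiusStrip (𝓡 2) M → HasSpine (𝓡 2) M → skewDim M = 7) ∧
    (Nonempty M → ∀ (M' : Type) [TopologicalSpace M']
      [ChartedSpace (EuclideanSpace ℝ (Fin 2)) M'] [IsManifold (𝓡 2) ∞ M'] (S : Set ℕ),
      IsAnnularChain (𝓡 2) M' S → EmbedsIn (𝓡 2) M M' → skewDim M = 6) := by
  have hloc : LocallyCompactSpace M :=
    Manifold.locallyCompact_of_finiteDimensional (𝓡 2)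
  have h1 : HasMoebiusStrip (𝓡 2) M → ∀ (N : ℕ) (φ : M → EuclideanSpace ℝ (Fin N)),
      IsTotallySkewEmbedding (𝓡 2) φ → 7 ≤ N := fun h N φ hφ => seven_le_of_moebius h hφ
  refine ⟨h1, fun hm hs => ?_, ?_⟩
  · have h2 : ∃ φ : M → EuclideanSpace ℝ (Fin 7), IsTotallySkewEmbedding (𝓡 2) φ :=
      exists_embedding_seven_of_spine hs
    refine le_antisymm (Nat.sInf_le h2) (le_csInf ⟨7, h2⟩ ?_)
    rintro N ⟨φ, hφ⟩
    exact h1 hm N φ hφ
  · intro hne M' _ _ _ S hM' hM
    have h2 : ∃ φ : M → EuclideanSpace ℝ (Fin 6), IsTotallySkewEmbedding (𝓡 2) φ :=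
      Ori.exists_embedding_six hM' hM
    refine le_antisymm (Nat.sInf_le h2) (le_csInf ⟨6, h2⟩ ?_)
    rintro N ⟨φ, hφ⟩
    exact six_le hφ

end Pool.Agent.Results.MP_794fdb_gt.OpenSurfaces
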