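import Pool.Agent.TotallySkew.RP2Map

/-!
A totally skew embedding of the real projective plane in Euclidean 7-space.
-/

open scoped Manifold ContDiff

namespace Pool.Agent.Results.MP_794fdb_gt.ProjectivePlaneR7

open Pool.Agent.TotallySkew

/-- **`N(ℝP²) ≤ 7`.** The projective plane `RP2`, the quotient of the unit sphere of `ℝ³` by
`{1, -1}`, is a smooth surface and has a totally skew smooth embedding in `ℝ⁷`. -/
theorem result :
    IsManifold (𝓡 2) ∞ RP2 ∧
    ∃ φ : RP2 → EuclideanSpace ℝ (Fin 7), IsTotallySkewEmbedding (𝓡 2) φ :=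
  ⟨inferInstance, RP2.exists_embedding⟩

end Pool.Agent.Results.MP_794fdb_gt.ProjectivePlaneR7
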