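import Pool.Agent.Lib.MP_794fdb_gt.U.Final
import Pool.Agent.Lib.MP_794fdb_gt.St.AS
import Pool.Agent.Lib.MP_794fdb_gt.St.SB
import Pool.Agent.Lib.MP_794fdb_gt.St.NS

/-!
Totally skew embeddings of the 2-sphere in Euclidean 6-space are degenerate and unstable, and
seven is the least dimension of a Euclidean space with a stable totally skew 2-sphere.
-/

set_option autoImplicit false

open scoped Manifold ContDiff Matrix
open Pool.Agent.TotallySkew Pool.Agent.Lib.SkewU Pool.Agent.Lib.SkewSt Pool.Agent.Lib.MP_794fdb_gt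

namespace Pool.Agent.Results.MP_794fdb_gt.StableSphere

/-- Euclidean `n`-space. -/
abbrev Space (n : ℕ) : Type := EuclideanSpace ℝ (Fin n)

/-- The unit sphere of `ℝ³`, with its smooth structure in Mathlib. -/
abbrev Sphere : Type := Metric.sphere (0 : Space 3) 1

/-- `φ : S² → ℝⁿ` is a totally skew embedding. -/
def TotallySkew {n : ℕ} (φ : Sphere → Space n) : Prop := IsTotallySkewEmbedding (𝓡 2) φ

/-- `φ : S² → ℝⁿ` is a stable totally skew embedding: it is a totally skew embedding, and every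
smooth family of maps `Ψ t : S² → ℝⁿ`, `t ∈ ℝᵏ`, with `Ψ 0 = φ` consists of totally skew embeddings
for `t` in a neighbourhood of `0`. -/
def Stable {n : ℕ} (φ : Sphere → Space n) : Prop := IsStable (𝓡 2) φ

/-- The tangent plane `dφ (T_x S²)`. -/
noncomputable def tangentPlane {n : ℕ} (φ : Sphere → Space n) (x : Sphere) :
    Submodule ℝ (Space n) :=
  (affineTangent (𝓡 2) φ x).direction

/-- The extension of a map `φ : S² → ℝⁿ` to `ℝ³ \ {0}` that is constant on rays:
`p ↦ φ (p / |p|)` for `p ≠ 0`. -/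
noncomputable def radial {n : ℕ} (φ : Sphere → Space n) (p : Space 3) : Space n :=
  if h : p = 0 then 0 else φ ⟨‖p‖⁻¹ • p, by simp [norm_smul, norm_ne_zero_iff.2 h]⟩

/-- The second derivative at `x` of the extension, in the directions `v`, `w`. Its class modulo
the tangent plane is the second fundamental form of `φ`. -/
noncomputable def secondDerivative {n : ℕ} (φ : Sphere → Space n) (x : Sphere) (v w : Space 3) :
    Space n :=
  iteratedFDeriv ℝ 2 (radial φ) x.1 ![v, w]

/-- `v` is a non-zero tangent vector of the sphere at `x`. -/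
def IsTangent (x : Sphere) (v : Space 3) : Prop := v ≠ 0 ∧ inner ℝ x.1 v = 0

/-- The second fundamental form of `φ` at `x` vanishes on some pair of non-zero tangent
vectors. -/
def IsSingularPoint {n : ℕ} (φ : Sphere → Space n) (x : Sphere) : Prop :=
  ∃ v w : Space 3, IsTangent x v ∧ IsTangent x w ∧ secondDerivative φ x v w ∈ tangentPlane φ x

/-- The map `x ↦ (xᵀ Q₀ x, …, xᵀ Q₅ x)`. -/
noncomputable def quadraticMap (Q : Fin 6 → Matrix (Fin 3) (Fin 3) ℝ) (x : Sphere) : Space 6 :=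
  WithLp.toLp 2 fun i => ∑ a, ∑ b, x.1 a * Q i a b * x.1 b

/-- The map `φ` plus the quadratic map with matrices `Q`. -/
noncomputable def perturb (φ : Sphere → Space 6) (Q : Fin 6 → Matrix (Fin 3) (Fin 3) ℝ)
    (x : Sphere) : Space 6 :=
  φ x + quadraticMap Q x

theorem radial_eq (φ : S2 → E6) (p : E3) : radial φ p = WithLp.toLp 2 (ext φ p.ofLp) := by
  by_cases h : p = 0
  · subst h
    simp [radial, ext]
  · have h' : p.ofLp ≠ 0 := by
      intro h0
      apply h
      ext i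
      simpa using congrFun h0 i
    unfold radial ext
    rw [dif_neg h, dif_neg h']

/-- The linear identifications. -/
noncomputable def eA : E3 ≃L[ℝ] V3 := PiLp.continuousLinearEquiv 2 ℝ (fun _ : Fin 3 => ℝ)

noncomputable def eB : V6 ≃L[ℝ] E6 := (PiLp.continuousLinearEquiv 2 ℝ (fun _ : Fin 6 => ℝ)).symm

theorem radial_comp (φ : S2 → E6) : radial φ = fun p => eB (ext φ (eA p)) := by
  funext p
  rw [radial_eq]
  rfl

theorem fderiv_radial {φ : S2 → E6} (hφ : ContMDiff (𝓡 2) 𝓘(ℝ, E6) ∞ φ) {p : E3} (hp : p ≠ 0)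
    (v : E3) : fderiv ℝ (radial φ) p v = eB (fderiv ℝ (ext φ) (eA p) (eA v)) := by
  have hp' : eA p ≠ 0 := by simpa using hp
  have hd : DifferentiableAt ℝ (ext φ) (eA p) := (ext_smooth hφ hp').differentiableAt (by simp)
  have h1 : HasFDerivAt (fun e : E3 => eB (ext φ (eA e)))
      ((eB : V6 →L[ℝ] E6).comp ((fderiv ℝ (ext φ) (eA p)).comp (eA : E3 →L[ℝ] V3))) p :=
    eB.hasFDerivAt.comp p (hd.hasFDerivAt.comp p eA.hasFDerivAt)
  rw [radial_comp, h1.fderiv]
  rfl

theorem second_radial {φ : S2 → E6} (hφ : ContMDiff (𝓡 2) 𝓘(ℝ, E6) ∞ φ) {x : E3} (hx : x ≠ 0)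
    (v w : E3) : iteratedFDeriv ℝ 2 (radial φ) x ![v, w] = eB (D2 (ext φ) (eA x) (eA v) (eA w)) := by
  have hx' : eA x ≠ 0 := by simpa using hx
  have hs := ext_smooth hφ hx'
  have h2 : ContDiffAt ℝ ∞ (fderiv ℝ (ext φ)) (eA x) := hs.fderiv_right (m := ∞) (by simp)
  have h3 : DifferentiableAt ℝ (fderiv ℝ (ext φ)) (eA x) := h2.differentiableAt (by simp)
  rw [iteratedFDeriv_two_apply]
  show (fderiv ℝ (fderiv ℝ (radial φ)) x v) w = _
  have he : fderiv ℝ (radial φ) =ᶠ[nhds x] fun p => 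
      (eB : V6 →L[ℝ] E6).comp ((fderiv ℝ (ext φ) (eA p)).comp (eA : E3 →L[ℝ] V3)) := by
    filter_upwards [isOpen_ne.mem_nhds hx] with p hp
    ext1 u
    rw [fderiv_radial hφ hp]
    rfl
  rw [he.fderiv_eq]
  have h4 : HasFDerivAt (fun p : E3 => fderiv ℝ (ext φ) (eA p))
      ((fderiv ℝ (fderiv ℝ (ext φ)) (eA x)).comp (eA : E3 →L[ℝ] V3)) x :=
    h3.hasFDerivAt.comp x eA.hasFDerivAt
  have h5 : HasFDerivAt (fun p : E3 => (eB : V6 →L[ℝ] E6).comp
      ((fderiv ℝ (ext φ) (eA p)).comp (eA : E3 →L[ℝ] V3)))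
      ((ContinuousLinearMap.compL ℝ E3 V6 E6 (eB : V6 →L[ℝ] E6)).comp
        (((ContinuousLinearMap.compL ℝ E3 V3 V6).flip (eA : E3 →L[ℝ] V3)).comp
          ((fderiv ℝ (fderiv ℝ (ext φ)) (eA x)).comp (eA : E3 →L[ℝ] V3)))) x :=
    ((ContinuousLinearMap.compL ℝ E3 V6 E6 (eB : V6 →L[ℝ] E6)).hasFDerivAt).comp x
      ((((ContinuousLinearMap.compL ℝ E3 V3 V6).flip (eA : E3 →L[ℝ] V3)).hasFDerivAt).comp x h4)
  rw [h5.fderiv]
  have h6 : D2 (ext φ) (eA x) (eA v) (eA w) =
      (fderiv ℝ (fderiv ℝ (ext φ)) (eA x) (eA v)) (eA w) := by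
    unfold D2
    rw [fderiv_clm_apply h3 (differentiableAt_const (eA w))]
    simp
  rw [h6]
  rfl

theorem quad_eq (Q : Fin 6 → Matrix (Fin 3) (Fin 3) ℝ) : quadraticMap Q = quad Q := by
  funext x
  ext i
  simp [quadraticMap, quad, dotProduct, Matrix.mulVec, Finset.mul_sum, mul_assoc]

theorem six (φ : Sphere → Space 6) :
    (TotallySkew φ → ∃ x, IsSingularPoint φ x) ∧
    ∀ ε : ℝ, 0 < ε → ∃ Q : Fin 6 → Matrix (Fin 3) (Fin 3) ℝ,
      (∀ i, (Q i).IsSymm) ∧ (∀ i a b, |Q i a b| < ε) ∧ ¬ TotallySkew (perturb φ Q) := by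
  constructor
  · intro hφ
    obtain ⟨x, v, w, u, hx, hxv, hxw, hxu, hv, hw, h⟩ := exists_singular hφ
    have hX := mani3_unit_mem hx
    refine ⟨⟨WithLp.toLp 2 x, hX⟩, WithLp.toLp 2 v, WithLp.toLp 2 w, ⟨?_, ?_⟩, ⟨?_, ?_⟩, ?_⟩
    · intro h0
      exact hv (congrArg WithLp.ofLp h0)
    · rw [← mani2_dot]
      exact hxv
    · intro h0
      exact hw (congrArg WithLp.ofLp h0)
    · rw [← mani2_dot]
      exact hxw
    · have hx0 : (WithLp.toLp 2 x : E3) ≠ 0 := by
        intro h0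
        exact mani3_ne_zero hx (congrArg WithLp.ofLp h0)
      show iteratedFDeriv ℝ 2 (radial φ) (WithLp.toLp 2 x) ![WithLp.toLp 2 v, WithLp.toLp 2 w] ∈ _
      rw [second_radial hφ.1 hx0]
      have hdx : DifferentiableAt ℝ (ext φ) x :=
        (ext_smooth hφ.1 (mani3_ne_zero hx)).differentiableAt (by simp)
      obtain ⟨u1, h1, -⟩ := mvfderiv_of_extension (φ := φ) (x := ⟨WithLp.toLp 2 x, hX⟩) hdx
        (ext_unit φ) (v := -u) (by
          show x ⬝ᵥ (-u) = 0
          rw [dotProduct_neg, hxu, neg_zero])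
      unfold tangentPlane affineTangent
      rw [AffineSubspace.direction_mk']
      refine ⟨u1, ?_⟩
      apply WithLp.ofLp_injective 2
      have h2 : D2 (ext φ) x v w = fderiv ℝ (ext φ) x (-u) := by
        rw [map_neg]
        exact eq_neg_of_add_eq_zero_left h
      exact h1.trans h2.symm
  · intro ε hε
    obtain ⟨Q, h1, h2, h3⟩ := unstable φ hε
    refine ⟨Q, h1, h2, ?_⟩
    have h4 : perturb φ Q = fun z => φ z + quad Q z := by
      funext z
      rw [← quad_eq]
      rfl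
    rw [h4]
    exact h3

/-- The totally skew sphere in seven-space is stable. -/
theorem seven : Stable SphereR7.phi := by
  refine stable_of_cubic (isTotallySkewEmbedding_of_compact SphereR7.phi_contMDiff ?_
    fun x y hxy t u v h => SphereR7.main hxy h) fun p => cubic_phi_indep p
  intro x u hu
  rw [SphereR7.mvfderiv_phi] at hu
  apply SphereR7.inc_inj x
  have h : ∀ i : Fin 7, (SphereR7.dPhi (SphereR7.inc x)
      (mvfderiv (𝓡 2) SphereR7.inc x u)) i = 0 := by
    intro i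
    rw [hu]
    rfl
  have h0 := h 0
  have h1 := h 1
  have h2 := h 2
  simp only [SphereR7.dPhi_apply] at h0 h1 h2
  rw [map_zero]
  ext i
  fin_cases i
  · exact h0
  · exact h1
  · exact h2

/-- **Seven is the least dimension of a Euclidean space in which the 2-sphere has a stable totally
skew embedding.** Moreover every totally skew embedding of the sphere in six-space has a singular
point of the second fundamental form, and is destroyed by arbitrarily small quadratic maps. -/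
theorem result :
    IsLeast {n : ℕ | ∃ φ : Sphere → Space n, Stable φ} 7 ∧
    (∀ φ : Sphere → Space 6, TotallySkew φ → ∃ x, IsSingularPoint φ x) ∧
    (∀ (φ : Sphere → Space 6) (ε : ℝ), 0 < ε → ∃ Q : Fin 6 → Matrix (Fin 3) (Fin 3) ℝ,
      (∀ i, (Q i).IsSymm) ∧ (∀ i a b, |Q i a b| < ε) ∧ ¬ TotallySkew (perturb φ Q)) := by
  refine ⟨⟨⟨_, seven⟩, ?_⟩, fun φ => (six φ).1, fun φ => (six φ).2⟩
  rintro n ⟨φ, hφ⟩
  by_contra hn
  exact not_stable_of_le (by omega) φ hφ

end Pool.Agent.Results.MP_794fdb_gt.StableSphere
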